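import Pool.Agent.Helper54.DT.StmtsS

set_option autoImplicit false

/-! The coefficients are computable in polynomial time (module PTC). -/

namespace Pool.Agent.Helper51.DCT

open Pool.Agent.Helper54.DT Pool.Agent.Helper54.ETR Pool.Agent.Helper54.Poly

section
variable {β γ : Type} [TEnc β] [TEnc γ]

theorem iteN {f g : β → ℕ} {u v : β → γ} (hf : PT f) (hg : PT g) (hu : PT u) (hv : PT v) :
    PT (fun a => if f a = g a then u a else v a) := by
  refine (PT.ite (PT.eqN hf hg) hu hv).congr fun a => ?_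
  by_cases h : f a = g a <;> simp [h]

theorem iteL {f g : β → ℕ} {u v : β → γ} (hf : PT f) (hg : PT g) (hu : PT u) (hv : PT v) :
    PT (fun a => if f a < g a then u a else v a) := by
  refine (PT.ite (PT.leN hg hf) hv hu).congr fun a => ?_
  by_cases h : g a ≤ f a
  · have h2 : ¬ f a < g a := by omega
    simp [h]
  · have h2 : f a < g a := by omega
    simp [h, h2]

theorem pSub {s t : β → List Tok} (hs : PT s) (ht : PT t) : PT (fun a => oK.sub (s a) (t a)) :=
  PT.lcons (PT.const Tok.sub) (PT.append hs ht)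

theorem pAdd {s t : β → List Tok} (hs : PT s) (ht : PT t) : PT (fun a => oK.add (s a) (t a)) :=
  PT.lcons (PT.const Tok.add) (PT.append hs ht)

theorem pMul {s t : β → List Tok} (hs : PT s) (ht : PT t) : PT (fun a => oK.mul (s a) (t a)) :=
  PT.lcons (PT.const Tok.mul) (PT.append hs ht)

/-- the functions with values in polynomial time -/
def QP (Q : β → List ℕ → List ℕ → List Tok) : Prop :=
  ∀ u v : β → List ℕ, PT u → PT v → PT (fun a => Q a (u a) (v a))

theorem l1 {i : β → ℕ} (hi : PT i) : PT (fun a => [i a]) := PT.lcons hi (PT.const [])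

theorem l2 {i j : β → ℕ} (hi : PT i) (hj : PT j) : PT (fun a => [i a, j a]) :=
  PT.lcons hi (l1 hj)

theorem l3 {i j k : β → ℕ} (hi : PT i) (hj : PT j) (hk : PT k) : PT (fun a => [i a, j a, k a]) :=
  PT.lcons hi (l2 hj hk)

theorem pT3 {Q : β → List ℕ → List ℕ → List Tok} (hQ : QP Q) {i j k : β → ℕ} (hi : PT i)
    (hj : PT j) (hk : PT k) : PT (fun a => t3 oK (Q a) (i a) (j a) (k a)) := by
  have h0 : PT (fun _ : β => ([] : List ℕ)) := PT.const []
  exact pSub (pAdd (pAdd (pAdd (hQ _ _ (l3 hi hj hk) h0) (hQ _ _ (l1 hi) h0))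
    (hQ _ _ (l1 hj) h0)) (hQ _ _ (l1 hk) h0))
    (pAdd (pAdd (pAdd (hQ _ _ (l2 hi hj) h0) (hQ _ _ (l2 hi hk) h0)) (hQ _ _ (l2 hj hk) h0))
      (hQ _ _ h0 h0))

theorem pH2 {Q : β → List ℕ → List ℕ → List Tok} (hQ : QP Q) {i j : β → ℕ} (hi : PT i)
    (hj : PT j) : PT (fun a => h2 oK (Q a) (i a) (j a)) := by
  have h0 : PT (fun _ : β => ([] : List ℕ)) := PT.const []
  exact pSub (pAdd (hQ _ _ (l2 hi hj) h0) (hQ _ _ h0 (l2 hi hj)))
    (pAdd (hQ _ _ (l1 hi) (l1 hj)) (hQ _ _ (l1 hj) (l1 hi)))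

end

/-- the four cases -/
def C1 (Q : List ℕ → List ℕ → List Tok) (i : ℕ) : List Tok :=
  oK.sub (oK.mul (nuO oK 12) (oK.sub (Q [i] []) (Q [] [i]))) (oK.mul (nuO oK 4) (t3 oK Q i i i))

def C2 (Q : List ℕ → List ℕ → List Tok) (i j : ℕ) : List Tok := oK.mul (nuO oK 3) (h2 oK Q i j)

def C3 (Q : List ℕ → List ℕ → List Tok) (i j k : ℕ) : List Tok :=
  oK.mul (nuO oK 12) (t3 oK Q i j k)

theorem cf3_eq (Q : List ℕ → List ℕ → List Tok) (a b c : ℕ) : cf3 oK Q a b c =
    if a = 0 then oK.zero else if b = 0 then oK.zero else if c = 0 then oK.zero else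
    if a = 1 then
      (if b = 1 then (if c = 1 then oK.mul (nuO oK 72) (Q [] []) else C1 Q (c - 2))
        else (if c = 1 then C1 Q (b - 2) else C2 Q (b - 2) (c - 2)))
    else
      (if b = 1 then (if c = 1 then C1 Q (a - 2) else C2 Q (a - 2) (c - 2))
        else (if c = 1 then C2 Q (a - 2) (b - 2) else C3 Q (a - 2) (b - 2) (c - 2))) := by
  rcases a with _ | _ | a <;> rcases b with _ | _ | b <;> rcases c with _ | _ | c <;>
    simp [cf3, List.filter, C1, C2, C3]

theorem rowC_eq (g : List Tok × List Tok → List ℕ → List ℕ → List Tok)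
    (lin : List (List Tok × List Tok)) (r m : ℕ) :
    rowC oK (lin.map g) r m =
    if r < lin.length then
      (if m = 0 then oK.zero else if m = 1 then g (lin.getD r ([], [])) [] [] else
        oK.sub (g (lin.getD r ([], [])) [m - 2] []) (g (lin.getD r ([], [])) [] []))
    else if r = lin.length then (if m = 1 then oK.one else oK.zero)
    else if m = 0 then oK.one
    else if 2 * (m - 1) = r - lin.length - 1 then oK.sub oK.zero oK.one
    else if 2 * (m - 1) + 1 = r - lin.length - 1 then oK.one else oK.zero := by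
  unfold rowC
  rw [List.length_map]
  split_ifs with h1 h2 h3 h4 h5 h6 h7 h8 h9 h10 <;> first
    | rfl
    | (exfalso; omega)
    | (have e : (lin.map g).getD r (fun _ _ => oK.zero) = g (lin.getD r ([], [])) := by
        rw [List.getD_eq_getElem _ _ (by simpa using h1), List.getD_eq_getElem _ _ h1,
          List.getElem_map]
       unfold cf1
       rw [e]
       simp_all)

theorem st_PTC : ST_PTC := by
  intro P hP α _ kl lin f hkl hlin hf
  refine ⟨?_, ?_, ?_⟩
  · have hr : PT (fun z : α × (ℕ × ℕ) => z.2.1) := PT.id.snd.fst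
    have hm : PT (fun z : α × (ℕ × ℕ) => z.2.2) := PT.id.snd.snd
    have hl : PT (fun z : α × (ℕ × ℕ) => lin z.1) := hlin.comp PT.id.fst
    have hlen : PT (fun z : α × (ℕ × ℕ) => (lin z.1).length) := PT.length hl
    have hp : PT (fun z : α × (ℕ × ℕ) => (lin z.1).getD z.2.1 ([], [])) :=
      PT.getD hr hl (PT.const ([], []))
    have h0 : PT (fun _ : α × (ℕ × ℕ) => ([] : List ℕ)) := PT.const []
    have hQ : ∀ u v : α × (ℕ × ℕ) → List ℕ, PT u → PT v →
        PT (fun z => P ((lin z.1).getD z.2.1 ([], []), (u z, v z))) :=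
      fun u v hu hv => hP.comp (hp.pair (hu.pair hv))
    have hm2 : PT (fun z : α × (ℕ × ℕ) => z.2.2 - 2) := PT.sub hm (PT.const 2)
    have hm1 : PT (fun z : α × (ℕ × ℕ) => 2 * (z.2.2 - 1)) :=
      PT.mul (PT.const 2) (PT.sub hm (PT.const 1))
    have hq : PT (fun z : α × (ℕ × ℕ) => z.2.1 - (lin z.1).length - 1) :=
      PT.sub (PT.sub hr hlen) (PT.const 1)
    have hz : PT (fun _ : α × (ℕ × ℕ) => oK.zero) := PT.const _
    have ho : PT (fun _ : α × (ℕ × ℕ) => oK.one) := PT.const _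
    have h := iteL hr hlen
      (iteN hm (PT.const 0) hz (iteN hm (PT.const 1) (hQ _ _ h0 h0)
        (pSub (hQ _ _ (l1 hm2) h0) (hQ _ _ h0 h0))))
      (iteN hr hlen (iteN hm (PT.const 1) ho hz)
        (iteN hm (PT.const 0) ho
          (iteN hm1 hq (pSub hz ho) (iteN (PT.add hm1 (PT.const 1)) hq ho hz))))
    refine h.congr fun z => ?_
    exact (rowC_eq (fun p l1 l2 => P (p, (l1, l2))) (lin z.1) z.2.1 z.2.2).symm
  · have hr : PT (fun z : α × ℕ => z.2) := PT.id.snd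
    have hk : PT (fun z : α × ℕ => kl z.1) := hkl.comp PT.id.fst
    exact iteL hr (PT.length hk) (PT.getD hr hk (PT.const 0))
      (iteN hr (PT.length hk) (PT.const 1) (PT.const 2))
  · have ha : PT (fun z : α × (ℕ × (ℕ × ℕ)) => z.2.1) := PT.id.snd.fst
    have hb : PT (fun z : α × (ℕ × (ℕ × ℕ)) => z.2.2.1) := PT.id.snd.snd.fst
    have hc : PT (fun z : α × (ℕ × (ℕ × ℕ)) => z.2.2.2) := PT.id.snd.snd.snd
    have ha2 : PT (fun z : α × (ℕ × (ℕ × ℕ)) => z.2.1 - 2) := PT.sub ha (PT.const 2)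
    have hb2 : PT (fun z : α × (ℕ × (ℕ × ℕ)) => z.2.2.1 - 2) := PT.sub hb (PT.const 2)
    have hc2 : PT (fun z : α × (ℕ × (ℕ × ℕ)) => z.2.2.2 - 2) := PT.sub hc (PT.const 2)
    have h0 : PT (fun _ : α × (ℕ × (ℕ × ℕ)) => ([] : List ℕ)) := PT.const []
    have hfz : PT (fun z : α × (ℕ × (ℕ × ℕ)) => f z.1) := hf.comp PT.id.fst
    have hQ : QP (fun z : α × (ℕ × (ℕ × ℕ)) => fun u v => P (f z.1, (u, v))) :=
      fun u v hu hv => hP.comp (hfz.pair (hu.pair hv))
    have hz : PT (fun _ : α × (ℕ × (ℕ × ℕ)) => oK.zero) := PT.const _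
    have hC1 : ∀ i : α × (ℕ × (ℕ × ℕ)) → ℕ, PT i →
        PT (fun z => C1 (fun u v => P (f z.1, (u, v))) (i z)) := fun i hi =>
      pSub (pMul (PT.const (nuO oK 12)) (pSub (hQ _ _ (l1 hi) h0) (hQ _ _ h0 (l1 hi))))
        (pMul (PT.const (nuO oK 4)) (pT3 hQ hi hi hi))
    have hC2 : ∀ i j : α × (ℕ × (ℕ × ℕ)) → ℕ, PT i → PT j →
        PT (fun z => C2 (fun u v => P (f z.1, (u, v))) (i z) (j z)) := fun i j hi hj =>
      pMul (PT.const (nuO oK 3)) (pH2 hQ hi hj)
    have hC3 : ∀ i j k : α × (ℕ × (ℕ × ℕ)) → ℕ, PT i → PT j → PT k →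
        PT (fun z => C3 (fun u v => P (f z.1, (u, v))) (i z) (j z) (k z)) := fun i j k hi hj hk =>
      pMul (PT.const (nuO oK 12)) (pT3 hQ hi hj hk)
    have hC0 : PT (fun z : α × (ℕ × (ℕ × ℕ)) => oK.mul (nuO oK 72) (P (f z.1, ([], [])))) :=
      pMul (PT.const (nuO oK 72)) (hQ _ _ h0 h0)
    have h := iteN ha (PT.const 0) hz (iteN hb (PT.const 0) hz (iteN hc (PT.const 0) hz
      (iteN ha (PT.const 1)
        (iteN hb (PT.const 1) (iteN hc (PT.const 1) hC0 (hC1 _ hc2))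
          (iteN hc (PT.const 1) (hC1 _ hb2) (hC2 _ _ hb2 hc2)))
        (iteN hb (PT.const 1) (iteN hc (PT.const 1) (hC1 _ ha2) (hC2 _ _ ha2 hc2))
          (iteN hc (PT.const 1) (hC2 _ _ ha2 hb2) (hC3 _ _ _ ha2 hb2 hc2))))))
    refine h.congr fun z => ?_
    exact (cf3_eq (fun u v => P (f z.1, (u, v))) z.2.1 z.2.2.1 z.2.2.2).symm

end Pool.Agent.Helper51.DCT
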